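import Mathlib

set_option autoImplicit false

namespace Pool.Agent.Results.MP_e1d516_co.Cex

def PAut {n : ℕ} (C : Submodule (ZMod 2) (Fin n → ZMod 2)) : Set (Equiv.Perm (Fin n)) :=
  {β | (fun c : Fin n → ZMod 2 => fun i => c (β.symm i)) '' C = C}

def G : Matrix (Fin 6) (Fin 12) (ZMod 2) :=
  !![1, 0, 0, 1, 1, 0, 1, 0, 0, 0, 0, 0; 0, 1, 1, 0, 0, 1, 0, 1, 0, 0, 0, 0;
     0, 1, 1, 1, 0, 0, 0, 0, 1, 0, 0, 0; 1, 0, 1, 1, 0, 0, 0, 0, 0, 1, 0, 0;
     1, 1, 1, 0, 0, 1, 0, 0, 0, 0, 1, 0; 1, 1, 0, 1, 1, 0, 0, 0, 0, 0, 0, 1]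

def enc (a : Fin 6 → ZMod 2) : Fin 12 → ZMod 2 := fun i => ∑ k, a k * G k i

def s : Fin 12 → Fin 12 := ![1, 0, 3, 2, 5, 4, 7, 6, 9, 8, 11, 10]

def s' : Fin 6 → Fin 6 := ![1, 0, 3, 2, 5, 4]

def σ : Equiv.Perm (Fin 12) := ⟨s, s, by decide, by decide⟩

def C : Submodule (ZMod 2) (Fin 12 → ZMod 2) := LinearMap.range G.vecMulLinear

lemma mem (c : Fin 12 → ZMod 2) : c ∈ C ↔ ∃ a, enc a = c := by
  simp only [C, LinearMap.mem_range]
  rfl

def h (i j : Fin 12) (c : Fin 12 → ZMod 2) : ℕ :=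
  if c i = 1 ∧ c j = 1 then (∑ k, (c k).val) ^ 3 else 0

def F (i j : Fin 12) : ℕ := ∑ a, h i j (enc a)

def T0 : Fin 12 → ℕ := ![10504, 6328, 6328, 6472, 6328, 6184, 6148, 6112, 6496, 6484, 6460, 6172]

def T1 : Fin 12 → ℕ := ![6328, 10504, 6472, 6328, 6184, 6328, 6112, 6148, 6484, 6496, 6172, 6460]

def D : Fin 12 → ℕ :=
  ![10504, 10504, 10528, 10528, 10240, 10240, 10168, 10168, 10552, 10552, 10216, 10216]

lemma tab : ∀ j, F 0 j = T0 j ∧ F 1 j = T1 j ∧ F j j = D j := by decide +kernel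

lemma inj : Function.Injective enc := fun a b e => by
  funext k
  have : ∀ (a : Fin 6 → ZMod 2) (k : Fin 6), enc a (Fin.natAdd 6 k) = a k := by decide +kernel
  rw [← this a, e, this]

lemma inv {β : Equiv.Perm (Fin 12)} (hβ : β ∈ PAut C) (i j : Fin 12) : F (β i) (β j) = F i j := by
  have : ∀ a, ∃ b, enc b = fun i => enc a (β.symm i) := fun a => by
    rw [← mem]
    have := hβ.le ⟨enc a, (mem _).2 ⟨a, rfl⟩, rfl⟩
    exact this
  choose π hπ using this
  have hi : Function.Injective π := fun a b e => inj (by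
    funext k
    have := congrFun ((hπ a).symm.trans ((congrArg enc e).trans (hπ b))) (β k)
    simpa using this)
  rw [F, ← (Equiv.ofBijective π hi.bijective_of_finite).sum_comp]
  refine Finset.sum_congr rfl fun a _ => ?_
  simp only [Equiv.ofBijective_apply, hπ, h, Equiv.symm_apply_apply]
  rw [β.symm.sum_comp fun k => (enc a k).val]

theorem result : ∃ m : ℕ, 2 ≤ m ∧ ∃ σ : Equiv.Perm (Fin (2 * m)),
    (∀ i, (σ i).val = if i.val % 2 = 0 then i.val + 1 else i.val - 1) ∧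
    ∃ C : Submodule (ZMod 2) (Fin (2 * m) → ZMod 2), PAut C = {1, σ} := by
  refine ⟨6, by norm_num, σ, by decide, C, Set.ext fun β => ⟨fun hβ => ?_, ?_⟩⟩
  · have h0 : β 0 = 0 ∨ β 0 = 1 := by
      have := inv hβ 0 0
      rw [(tab _).2.2, (tab _).2.2] at this
      revert this
      generalize β 0 = a
      revert a
      decide +kernel
    have hd : ∀ j, D (β j) = D j := fun j => by
      rw [← (tab _).2.2, ← (tab _).2.2]; exact inv hβ j j
    rcases h0 with h0 | h0
    · refine Or.inl (Equiv.ext fun j => ?_)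
      have := inv hβ 0 j
      rw [h0, (tab _).1, (tab _).1] at this
      have k : ∀ a b : Fin 12, D a = D b → T0 a = T0 b → a = b := by decide +kernel
      exact k _ _ (hd j) this
    · refine Or.inr (Equiv.ext fun j => ?_)
      have := inv hβ 0 j
      rw [h0, (tab _).2.1, (tab _).1] at this
      have k : ∀ a b : Fin 12, D a = D b → T1 a = T0 b → a = s b := by decide +kernel
      exact k _ _ (hd j) this
  · rintro (rfl | rfl)
    · exact Set.image_id _
    · have k : ∀ (a : Fin 6 → ZMod 2) (i : Fin 12), enc (fun k => a (s' k)) i = enc a (s i) := by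
        decide +kernel
      have k' : ∀ i, s (s i) = i := by decide
      ext c
      constructor
      · rintro ⟨d, hd, rfl⟩
        obtain ⟨a, rfl⟩ := (mem d).1 hd
        exact (mem _).2 ⟨_, funext (k a)⟩
      · intro hc
        obtain ⟨a, rfl⟩ := (mem c).1 hc
        exact ⟨_, (mem _).2 ⟨fun k => a (s' k), rfl⟩, funext fun i => (k a (s i)).trans (by rw [k'])⟩

end Pool.Agent.Results.MP_e1d516_co.Cex
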